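import Pool.Agent.H679.DC.Fq

/-!
# Four squares whose linear form starts an almost prime quadruple and has a prescribed binary digit sum

Q1 asks for a representation `n = x² + y² + z² + w²` with natural numbers such that `p - 2`, `p`, `p + 4`, `p + 10` are
prime, `p = x + 2 y + 5 z`. The largest possible value of `p` is at most `√(30 n)`; let `K` be the number of binary
digits of its integer part. For every large `n` which is not divisible by `4` and for EVERY `s` between `ε K` and
`(1 - ε) K` we find such representations for which the sum of the binary digits of `p` is exactly `s` and for which the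
four numbers `p - 2`, `p`, `p + 4`, `p + 10` are almost primes; the number of these `p` has the expected order of
magnitude `binom(K, s) / K ^ 4`, and the number of the `p` with `29 n ≤ p² ≤ 30 n` and with digit sum `s` for which the
four numbers are primes is at most a constant times the same quantity. For `s` away from `K / 2` the set of all `p` with
this digit sum has only `n ^ c` elements, `c < 1 / 2`.
-/

set_option autoImplicit false

namespace Pool.Agent.Results.MP_40574a_nt.ExactDigitSum

open Filter

/-- the sum of the binary digits -/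
def s2 (m : ℕ) : ℕ := (Nat.digits 2 m).sum

/-- `p = x + 2 y + 5 z` for a representation `n = x² + y² + z² + w²` with natural numbers -/
def Value (n p : ℕ) : Prop := ∃ x y z w : ℕ, n = x ^ 2 + y ^ 2 + z ^ 2 + w ^ 2 ∧ p = x + 2 * y + 5 * z

/-- the number of binary digits of the integer part of `√(30 n)` -/
def places (n : ℕ) : ℕ := Nat.log 2 (Nat.sqrt (30 * n)) + 1

/-- `m` has at most `r` prime factors, counted with multiplicity, all of them greater than `n ^ (1 / r)` -/
def AlmostPrime (n r m : ℕ) : Prop := (∀ q : ℕ, q.Prime → q ∣ m → n < q ^ r) ∧ m.primeFactorsList.length ≤ r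

/-- the values `p` with digit sum `s` for which `p - 2`, `p`, `p + 4`, `p + 10` are almost primes -/
def Good (n r s : ℕ) : Set ℕ := {p | Value n p ∧ s2 p = s ∧ 2 < p ∧
  AlmostPrime n r (p - 2) ∧ AlmostPrime n r p ∧ AlmostPrime n r (p + 4) ∧ AlmostPrime n r (p + 10)}

/-- the `p` with digit sum `s` in the window for which `p - 2`, `p`, `p + 4`, `p + 10` are primes -/
def PrimeQuadruples (n s : ℕ) : Set ℕ := {p | 29 * n ≤ p ^ 2 ∧ p ^ 2 ≤ 30 * n ∧ s2 p = s ∧
  (p - 2).Prime ∧ p.Prime ∧ (p + 4).Prime ∧ (p + 10).Prime}

/-- **Almost prime quadruples started by the linear form, with a prescribed digit sum.** -/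
theorem result (ε : ℝ) (hε : 0 < ε) (hε1 : ε ≤ 1) : ∃ r : ℕ, ∃ κ C : ℝ, 0 < κ ∧ 0 < C ∧
    ∀ᶠ n : ℕ in atTop, ¬ 4 ∣ n → ∀ s : ℕ, ε * places n ≤ s → (s : ℝ) ≤ (1 - ε) * places n →
      κ * ((places n).choose s) / (places n : ℝ) ^ 4 ≤ ((Good n r s).ncard : ℝ) ∧
      ((PrimeQuadruples n s).ncard : ℝ) ≤ C * ((places n).choose s) / (places n : ℝ) ^ 4 := by
  obtain ⟨r, κ, C, hκ, hC, h⟩ := Pool.Agent.H679.DC.four_sq ε hε hε1
  refine ⟨r, κ, C, hκ, hC, ?_⟩
  filter_upwards [h] with n hn h4 s hs1 hs2
  exact hn h4 (places n) s rfl hs1 hs2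

end Pool.Agent.Results.MP_40574a_nt.ExactDigitSum
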