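import Pool.Agent.H537.TP.Fin2
import Pool.Graph.R_seed8.H141R2.FS.Main1

/-!
# Four squares and prime quadruples: limits to the equidistribution of the represented primes

Q1 asks, for every `n > 1` with `4 ∤ n`, for a representation `n = x² + y² + z² + w²` for which
`p = x + 2 y + 5 z` and `p - 2`, `p + 4`, `p + 10` are primes. By the library (`Pool.Agent.H141R2.FS.rep`)
every prime `p` with `29 n < p² ≤ 30 n` is a value of `x + 2 y + 5 z` at a representation of `n`, for every
`n` with `4 ∤ n`. We study the represented PRIMES `p` in this window for which `p - 2`, `p + 4`, `p + 10`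
have no prime factor `≤ s`, where `s` is any integer up to `n ^ (1 / u)`; their number, also in residue
classes to small moduli, is the one predicted by Hardy and Littlewood (fundamental lemma of the sieve and
Bombieri-Vinogradov). Let `N` be the length of the window and `Q = N / (log N) ^ B`. For EVERY large `n`
with `4 ∤ n` and EVERY such `s` the prediction fails by a constant factor, on average over the moduli
`Q < q ≤ 2 Q`: there is a residue `a` with too many and one with too few represented primes.

Proof (`Pool.Agent.H537.TP.mainP`, uniformly for all polynomials `G` in place of `(p - 2) (p + 4) (p + 10)`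
and all intervals). There is an `a` just above `√(29 n)` such that `a (a - 2) (a + 4) (a + 10)` has no prime
factor up to `w = (log N) ^ (B / (K + 1))` and is divisible by all primes between `w` and
`(log N) ^ (B / K)`, those which are `≤ s` and divide a value of the polynomial, or divide `a`. If
`p = a + q m` is counted then neither `q` nor `m` has a prime factor in common with `a`, nor one `≤ s` in
common with `G(a)`, and the sum over `q` of the numbers of the `p ≡ a (mod q)` is the sum over the
cofactors `m ≤ 2 (log N) ^ B` of the numbers of the `p ≡ a (mod m)` in intervals, which are given by the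
fundamental lemma with the error terms of the theorem of Bombieri and Vinogradov. The inclusion and
exclusion of the prime factors of `m` stops after `K` steps, and the number of the `m` coprime to these
primes differs from its expected value by a constant factor, in the direction given by the parity of `K`.
For the primes (no sieve) this is the argument of Friedlander and Granville (1989).
-/

set_option autoImplicit false

open Finset Filter Polynomial

namespace Pool.Agent.Results.MP_40574a_nt.LimitsOfEquidistribution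

/-- `p` is a value of `x + 2 y + 5 z` at a representation of `n` as a sum of four squares -/
def Represented (n p : ℕ) : Prop :=
  ∃ x y z w : ℕ, n = x ^ 2 + y ^ 2 + z ^ 2 + w ^ 2 ∧ p = x + 2 * y + 5 * z

/-- no prime `r ≤ s` divides `(m - 2) (m + 4) (m + 10)` -/
def Free (s m : ℕ) : Prop :=
  ∀ r : ℕ, r.Prime → r ≤ s → ¬ (r : ℤ) ∣ ((m : ℤ) - 2) * ((m : ℤ) + 4) * ((m : ℤ) + 10)

open Classical in
/-- the number of the represented primes `p` with `29 n < p² ≤ 30 n` and `p ≡ a (mod q)` for which
`p - 2`, `p + 4`, `p + 10` have no prime factor `≤ s` -/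
noncomputable def count (n s q a : ℕ) : ℕ :=
  ((Icc 1 (30 * n)).filter (fun p : ℕ => 29 * n < p ^ 2 ∧ p ^ 2 ≤ 30 * n ∧ p.Prime ∧ Represented n p ∧
    p ≡ a [MOD q] ∧ Free s p)).card

/-- the length of the window -/
def len (n : ℕ) : ℕ := Nat.sqrt (30 * n) - Nat.sqrt (29 * n)

/-- the number of the nonzero solutions of `(c - 2) (c + 4) (c + 10) = 0` modulo `r` -/
def om (r : ℕ) : ℕ :=
  ((range r).filter (fun c : ℕ => c ≠ 0 ∧ (r : ℤ) ∣ ((c : ℤ) - 2) * ((c : ℤ) + 4) * ((c : ℤ) + 10))).card

/-- the expected number, `N` the length of the window: `N / (φ(q) log N)` times the product of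
`1 - om(r) / (r - 1)` over the primes `r ≤ s`, `r ∤ q` -/
noncomputable def expected (n s q : ℕ) : ℝ :=
  (len n : ℝ) / Real.log (len n) / q.totient *
    ∏ r ∈ (Icc 1 s).filter (fun r : ℕ => r.Prime ∧ ¬ r ∣ q), (1 - (om r : ℝ) / ((r : ℝ) - 1))

open Classical in
/-- the moduli `Q < q ≤ 2 Q` coprime to `a` for which no prime `r ≤ s` divides `q` and
`(a - 2) (a + 4) (a + 10)` (the other moduli do not matter) -/
noncomputable def moduli (s Q a : ℕ) : Finset ℕ :=
  (Ioc Q (2 * Q)).filter (fun q : ℕ => a.Coprime q ∧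
    ∀ r : ℕ, r.Prime → r ≤ s → r ∣ q → ¬ (r : ℤ) ∣ ((a : ℤ) - 2) * ((a : ℤ) + 4) * ((a : ℤ) + 10))

/-- the polynomial -/
private noncomputable def G : ℤ[X] := (X - C 2) * (X + C 4) * (X + C 10)

private theorem G_eval (n : ℕ) : G.eval (n : ℤ) = ((n : ℤ) - 2) * ((n : ℤ) + 4) * ((n : ℤ) + 10) := by
  unfold G
  simp

private theorem G_deg : G.natDegree ≤ 3 := by
  unfold G
  compute_degree

private theorem om_eq (r : ℕ) : Pool.Agent.H537.TP.omP G r = om r := by
  unfold Pool.Agent.H537.TP.omP om
  simp only [G_eval]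

private theorem adm {p : ℕ} (hp : p.Prime) : Pool.Agent.H537.TP.omP G p + 1 < p := by
  rw [om_eq]
  rcases Nat.lt_or_ge p 7 with h7 | h7
  · have hp2 := hp.two_le
    interval_cases p
    · decide
    · decide
    · exact absurd hp (by norm_num)
    · decide
    · exact absurd hp (by norm_num)
  · -- at most three zeros
    have hlt : om p ≤ 3 := by
      have h1 : Pool.Agent.H537.GP.omG G p < p := by
        have h2 : ¬ (p : ℤ) ∣ G.eval ((0 : ℕ) : ℤ) ∨ ¬ (p : ℤ) ∣ G.eval ((1 : ℕ) : ℤ) := by
          by_contra hc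
          push Not at hc
          obtain ⟨h2, h3⟩ := hc
          rw [G_eval] at h2 h3
          norm_num at h2 h3
          have h4 : (p : ℤ) ∣ 80 := by simpa using h2
          have h5 : (p : ℤ) ∣ 55 := by simpa using h3
          have h6 : (p : ℤ) ∣ 5 := by
            have := dvd_sub (Dvd.dvd.mul_left h5 3) (Dvd.dvd.mul_left h4 2)
            norm_num at this
            exact this
          have h8 : p ∣ 5 := by exact_mod_cast h6
          have := Nat.le_of_dvd (by norm_num) h8
          omega
        unfold Pool.Agent.H537.GP.omG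
        rcases h2 with h2 | h2
        · calc _ < (range p).card := card_lt_card (filter_ssubset.mpr ⟨0, mem_range.mpr hp.pos, h2⟩)
            _ = p := card_range p
        · calc _ < (range p).card := card_lt_card (filter_ssubset.mpr ⟨1, mem_range.mpr hp.one_lt, h2⟩)
            _ = p := card_range p
      have h2 := (Pool.Agent.H537.GP.omG_le hp h1).trans G_deg
      refine le_trans ?_ h2
      unfold om Pool.Agent.H537.GP.omG
      apply card_le_card
      intro c hc
      rw [mem_filter] at hc ⊢
      rw [G_eval]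
      exact ⟨hc.1, hc.2.2⟩
    omega

private theorem expected_eq (n s q : ℕ) :
    Pool.Agent.H537.TP.expP G s (len n) q (Real.log (len n)) = expected n s q := by
  unfold Pool.Agent.H537.TP.expP expected
  simp only [om_eq]

private theorem moduli_eq (s Q a : ℕ) : Pool.Agent.H537.TP.MP G s Q a = moduli s Q a := by
  classical
  unfold Pool.Agent.H537.TP.MP moduli
  apply filter_congr
  intro q _
  simp only [G_eval]

/-- the represented primes are the primes of the window -/
private theorem count_eq {n : ℕ} (h4 : ¬ 4 ∣ n) (h1 : 1 ≤ n) (s q a : ℕ) :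
    Pool.Agent.H537.TP.cntP G s (Nat.sqrt (29 * n)) (len n) q a = count n s q a := by
  classical
  unfold Pool.Agent.H537.TP.cntP count len
  have hle : Nat.sqrt (29 * n) ≤ Nat.sqrt (30 * n) := Nat.sqrt_le_sqrt (by omega)
  rw [Nat.add_sub_cancel' hle]
  congr 1
  ext p
  rw [mem_filter, mem_filter, mem_Ioc, mem_Icc, Nat.sqrt_lt', Nat.le_sqrt']
  simp only [G_eval]
  unfold Free
  constructor
  · rintro ⟨⟨h2, h3⟩, h5, h6, h7⟩
    refine ⟨⟨h5.one_lt.le, ?_⟩, h2, h3, h5, ?_, h6, h7⟩
    · exact (Nat.le_self_pow (by norm_num) p).trans h3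
    · have h30 : Nat.Coprime p 30 := by
        have hp5 : 5 < p := by nlinarith
        rw [Nat.Prime.coprime_iff_not_dvd h5]
        intro hd
        have h8 := (Nat.Prime.dvd_mul h5).mp (show p ∣ 6 * 5 by simpa using hd)
        rcases h8 with h8 | h8
        · have h9 := (Nat.Prime.dvd_mul h5).mp (show p ∣ 2 * 3 by simpa using h8)
          rcases h9 with h9 | h9
          · have := Nat.le_of_dvd (by norm_num) h9
            omega
          · have := Nat.le_of_dvd (by norm_num) h9
            omega
        · have := Nat.le_of_dvd (by norm_num) h8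
          omega
      obtain ⟨x, y, z, w, h8, h9⟩ := Pool.Agent.H141R2.FS.rep h4 h30 h2.le h3
      exact ⟨x, y, z, w, h8, h9.symm⟩
  · rintro ⟨_, h2, h3, h5, _, h6, h7⟩
    exact ⟨⟨h2, h3⟩, h5, h6, h7⟩

/-- the length of the window -/
private theorem len_ge {n : ℕ} (hn : 10000 ≤ n) : Real.sqrt n ≤ 13 * len n := by
  unfold len
  have hle : Nat.sqrt (29 * n) ≤ Nat.sqrt (30 * n) := Nat.sqrt_le_sqrt (by omega)
  rw [Nat.cast_sub hle]
  have h1 : (Nat.sqrt (29 * n) : ℝ) ≤ Real.sqrt 29 * Real.sqrt n := by
    have := Real.nat_sqrt_le_real_sqrt (a := 29 * n)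
    push_cast at this
    rwa [Real.sqrt_mul (by norm_num)] at this
  have h2 : Real.sqrt 30 * Real.sqrt n ≤ (Nat.sqrt (30 * n) : ℝ) + 1 := by
    have := Real.real_sqrt_le_nat_sqrt_succ (a := 30 * n)
    push_cast at this
    rwa [Real.sqrt_mul (by norm_num)] at this
  have h3 : Real.sqrt 29 ≤ 5.3852 := by
    rw [Real.sqrt_le_left (by norm_num)]
    norm_num
  have h4 : 5.4772 ≤ Real.sqrt 30 := by
    apply Real.le_sqrt_of_sq_le
    norm_num
  have h5 : 100 ≤ Real.sqrt n := by
    apply Real.le_sqrt_of_sq_le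
    have : (10000 : ℝ) ≤ n := by exact_mod_cast hn
    linarith
  nlinarith

/-- **Limits to the equidistribution of the represented primes.** Let `B > 0`. There are `h > 0` and `u` such
that for every `ε > 0`, all large `n` not divisible by `4` and EVERY `s` with `s ^ u ≤ n`, with `N` the length
of the window `√(29 n) < p ≤ √(30 n)` and `Q = ⌊N / (log N) ^ B⌋`: there is an integer `a` of the interval
`(√(29 n), √(29 n) + N ^ ε]` (the root being rounded down) such that the total number of the represented
primes `p ≡ a (mod q)` of the window, for which `p - 2`, `p + 4`, `p + 10` have no prime factor `≤ s`, over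
the moduli `q ∈ (Q, 2Q]`, is at least `1 + h` times the (positive) expected one, and there is one such that
it is at most `1 - h` times the (positive) expected one. -/
theorem result (B : ℝ) (hB : 0 < B) :
    ∃ h : ℝ, 0 < h ∧ ∃ u : ℕ, ∀ ε : ℝ, 0 < ε → ∀ᶠ n : ℕ in atTop, ¬ 4 ∣ n → ∀ s : ℕ, s ^ u ≤ n →
      (∃ a : ℕ, Nat.sqrt (29 * n) < a ∧ (a : ℝ) ≤ Nat.sqrt (29 * n) + (len n : ℝ) ^ ε ∧
        0 < ∑ q ∈ moduli s ⌊(len n : ℝ) / Real.log (len n) ^ B⌋₊ a, expected n s q ∧
        (1 + h) * ∑ q ∈ moduli s ⌊(len n : ℝ) / Real.log (len n) ^ B⌋₊ a, expected n s q ≤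
          ∑ q ∈ moduli s ⌊(len n : ℝ) / Real.log (len n) ^ B⌋₊ a, (count n s q a : ℝ)) ∧
      (∃ a : ℕ, Nat.sqrt (29 * n) < a ∧ (a : ℝ) ≤ Nat.sqrt (29 * n) + (len n : ℝ) ^ ε ∧
        0 < ∑ q ∈ moduli s ⌊(len n : ℝ) / Real.log (len n) ^ B⌋₊ a, expected n s q ∧
        ∑ q ∈ moduli s ⌊(len n : ℝ) / Real.log (len n) ^ B⌋₊ a, (count n s q a : ℝ) ≤
          (1 - h) * ∑ q ∈ moduli s ⌊(len n : ℝ) / Real.log (len n) ^ B⌋₊ a, expected n s q) := by
  obtain ⟨h, hh, hmain⟩ := Pool.Agent.H537.TP.mainP 3 B hB
  obtain ⟨u, hu⟩ := hmain 100 (by norm_num)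
  refine ⟨h, hh, 4 * (u + 1), fun ε hε => ?_⟩
  have hlen : Tendsto len atTop atTop := by
    rw [← tendsto_natCast_atTop_iff (R := ℝ)]
    have h1 : Tendsto (fun n : ℕ => Real.sqrt n / 13) atTop atTop :=
      (Real.tendsto_sqrt_atTop.comp tendsto_natCast_atTop_atTop).atTop_div_const (by norm_num)
    refine tendsto_atTop_mono' _ ?_ h1
    filter_upwards [eventually_ge_atTop 10000] with n hn
    have := len_ge hn
    linarith
  obtain ⟨Cv, hCv⟩ := Pool.Agent.H537.GP.value_le G
  filter_upwards [hlen.eventually (hu 8 (by norm_num) ε hε), eventually_ge_atTop 30000, hlen.eventually_ge_atTop (Cv + 200)]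
    with n hn hn1 hn2
  intro h4 s hs
  set N := len n with hN
  have hNl : Real.sqrt n ≤ 13 * N := len_ge (by omega)
  have hNs : (N : ℝ) ≤ 6 * Real.sqrt n := by
    rw [hN]
    unfold len
    have h1 : (Nat.sqrt (30 * n) : ℝ) ≤ Real.sqrt 30 * Real.sqrt n := by
      have := Real.nat_sqrt_le_real_sqrt (a := 30 * n)
      push_cast at this
      rwa [Real.sqrt_mul (by norm_num)] at this
    have h2 : Real.sqrt 30 ≤ 6 := by
      rw [Real.sqrt_le_left (by norm_num)]
      norm_num
    have h3 : ((Nat.sqrt (30 * n) - Nat.sqrt (29 * n) : ℕ) : ℝ) ≤ Nat.sqrt (30 * n) := by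
      exact_mod_cast Nat.sub_le _ _
    have h5 : 0 ≤ Real.sqrt (n : ℝ) := Real.sqrt_nonneg _
    nlinarith
  have hN200 : (200 : ℝ) ≤ N := by
    have : 200 ≤ N := by omega
    exact_mod_cast this
  have hN0 : (0 : ℝ) < N := by linarith
  have hY : (Nat.sqrt (29 * n) : ℝ) ≤ 100 * N := by
    have h1 : (Nat.sqrt (29 * n) : ℝ) ≤ Real.sqrt 29 * Real.sqrt n := by
      have := Real.nat_sqrt_le_real_sqrt (a := 29 * n)
      push_cast at this
      rwa [Real.sqrt_mul (by norm_num)] at this
    have h3 : Real.sqrt 29 ≤ 6 := by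
      rw [Real.sqrt_le_left (by norm_num)]
      norm_num
    have h5 : 0 ≤ Real.sqrt (n : ℝ) := Real.sqrt_nonneg _
    nlinarith
  have hsu : s ^ u ≤ N := by
    rcases Nat.eq_zero_or_pos s with h0 | h0
    · rcases Nat.eq_zero_or_pos u with h3 | h3
      · rw [h3, pow_zero]
        omega
      · rw [h0, zero_pow (by omega)]
        exact Nat.zero_le _
    · have e1 : (s ^ (u + 1)) ^ 4 ≤ n := by
        rw [← pow_mul, mul_comm (u + 1) 4]
        exact hs
      have e2 : (s : ℝ) ^ u ≤ s ^ (u + 1) := by
        apply pow_le_pow_right₀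
        · exact_mod_cast h0
        · omega
      have e3 : ((s : ℝ) ^ (u + 1)) ^ 4 ≤ n := by exact_mod_cast e1
      have e4 : ((s : ℝ) ^ (u + 1)) ^ 2 ≤ Real.sqrt n := by
        apply Real.le_sqrt_of_sq_le
        rw [← pow_mul]
        exact e3
      have e5 : ((s : ℝ) ^ (u + 1)) ^ 2 ≤ 13 * N := e4.trans hNl
      have e6 : (s : ℝ) ^ (u + 1) ≤ N := by
        by_contra hc
        push Not at hc
        nlinarith
      exact_mod_cast e2.trans e6
  have key := hn G (Nat.sqrt (29 * n)) s G_deg (fun p hp => adm hp) (by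
    intro m hm
    have e1 := hCv m (N + Nat.sqrt (29 * n)) hm (by omega)
    have e2 : ((G.eval (m : ℤ)).natAbs : ℝ) ≤ Cv * ((N + Nat.sqrt (29 * n) : ℕ) : ℝ) ^ G.natDegree := by
      rw [Nat.cast_natAbs]
      exact_mod_cast e1
    have e3 : ((N + Nat.sqrt (29 * n) : ℕ) : ℝ) ≤ (N : ℝ) ^ 2 := by
      push_cast
      nlinarith
    have e4 : (Cv : ℝ) ≤ N := by
      have : Cv ≤ N := by omega
      exact_mod_cast this
    calc ((G.eval (m : ℤ)).natAbs : ℝ) ≤ Cv * ((N + Nat.sqrt (29 * n) : ℕ) : ℝ) ^ G.natDegree := e2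
      _ ≤ N * ((N : ℝ) ^ 2) ^ G.natDegree := by
          apply mul_le_mul e4 (pow_le_pow_left₀ (Nat.cast_nonneg _) e3 _) (by positivity) hN0.le
      _ ≤ N * ((N : ℝ) ^ 2) ^ 3 := by
          apply mul_le_mul_of_nonneg_left _ hN0.le
          exact pow_le_pow_right₀ (by nlinarith) G_deg
      _ = (N : ℝ) ^ 7 := by ring
      _ ≤ (N : ℝ) ^ 8 := pow_le_pow_right₀ (by linarith) (by norm_num)
      _ = (N : ℝ) ^ (8 : ℝ) := by norm_cast) hY hsu
  simp only [moduli_eq, hN, expected_eq, count_eq h4 (show 1 ≤ n by omega)] at key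
  exact key

end Pool.Agent.Results.MP_40574a_nt.LimitsOfEquidistribution
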