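import Pool.Agent.H530.HzW
import Pool.Graph.R_seed8.H141R2.FS.Main1

/-!
# Four squares: the almost prime quadruples among the values of `x + 2 y + 5 z`, with prescribed parities

Let `4 ∤ n`, `y ^ K ≤ n`, and let `quads y n` be the set of the `p` with `29 n ≤ p ² ≤ 30 n` for which none of
`p - 2`, `p`, `p + 4`, `p + 10` has a prime factor `≤ y`. Put `δ = 2 ^ (-⌊K / A⌋)`. For EVERY large `n`, `4 ∤ n`:

* every such `p` is the value of `x + 2 y + 5 z` at a representation `n = x² + y² + z² + w²` in natural numbers, and each of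
  the four numbers has an odd number of prime factors for half of them, up to `δ`;
* the number of the three-term progressions of such values has the right order of magnitude; if at each of the three
  terms one of the four numbers is chosen, all eight patterns of the parities of their numbers of prime factors
  have share `1 / 8`, up to `δ`;
* for arbitrary subsets at both ends (for example the values starting true prime quadruples) both parities are equally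
  frequent in the middle;
* every `h ≤ √n / 30` without local obstruction is a difference of two of the values, in the right order of magnitude, and for
  all but `δ √n` of them all four patterns of parities have share `1 / 4`, up to `δ`.
-/

set_option autoImplicit false

namespace Pool.Agent.Results.MP_40574a_nt.ValuesWithParityPatterns

open Finset

/-- `p` is the value of `x + 2 y + 5 z` at a representation of `n` as a sum of four squares of natural numbers -/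
def Val (n p : ℕ) : Prop := ∃ x y z w : ℕ, n = x ^ 2 + y ^ 2 + z ^ 2 + w ^ 2 ∧ p = x + 2 * y + 5 * z

/-- the four numbers `p - 2`, `p`, `p + 4`, `p + 10` -/
def num (i : Fin 4) (p : ℕ) : ℕ := ![p - 2, p, p + 4, p + 10] i

open Classical in
/-- the `p` with `29 n ≤ p ² ≤ 30 n` for which none of the four numbers has a prime factor up to `y` -/
noncomputable def quads (y n : ℕ) : Finset ℕ :=
  (Icc 1 (30 * n)).filter (fun p => 29 * n ≤ p ^ 2 ∧ p ^ 2 ≤ 30 * n ∧
    ∀ q : ℕ, q.Prime → q ≤ y → ∀ i, ¬ q ∣ num i p)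

/-- the number of prime factors is odd (`s` true) or even (`s` false) -/
def Par (s : Bool) (m : ℕ) : Prop := Odd (ArithmeticFunction.cardFactors m) ↔ s = true

open Classical in
/-- the progressions, with difference of either sign: the `(p₁, p₃, p₂)` with `p₁ + p₃ = 2 p₂` -/
noncomputable def progs (y n : ℕ) : Finset (ℕ × ℕ × ℕ) :=
  (quads y n ×ˢ quads y n ×ˢ quads y n).filter (fun t => t.1 + t.2.1 = 2 * t.2.2)

open Classical in
/-- the progressions for which the chosen numbers have the parities `s₁`, `s₂`, `s₃` -/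
noncomputable def pattern (y n : ℕ) (i₁ i₂ i₃ : Fin 4) (s₁ s₂ s₃ : Bool) : Finset (ℕ × ℕ × ℕ) :=
  (progs y n).filter (fun t => Par s₁ (num i₁ t.1) ∧ Par s₃ (num i₃ t.2.1) ∧ Par s₂ (num i₂ t.2.2))

open Classical in
/-- the progressions with `p₁ ∈ S₁`, `p₃ ∈ S₃` for which the chosen number in the middle has the parity `s` -/
noncomputable def within (y n : ℕ) (S₁ S₃ : Finset ℕ) (i : Fin 4) (s : Bool) : Finset (ℕ × ℕ × ℕ) :=
  (progs y n).filter (fun t => t.1 ∈ S₁ ∧ t.2.1 ∈ S₃ ∧ Par s (num i t.2.2))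

open Classical in
/-- the `p` for which `p` and `p + h` belong to the set -/
noncomputable def dist (y n h : ℕ) : Finset ℕ := (quads y n).filter (fun p => p + h ∈ quads y n)

open Classical in
/-- with prescribed parities -/
noncomputable def distPat (y n h : ℕ) (i₁ i₂ : Fin 4) (s₁ s₂ : Bool) : Finset ℕ :=
  (dist y n h).filter (fun p => Par s₁ (num i₁ p) ∧ Par s₂ (num i₂ (p + h)))

/-- no local obstruction to the distance `h`: `6 ∣ h` and `h` is not `2` or `3` modulo `5` -/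
def Free (h : ℕ) : Prop := 6 ∣ h ∧ h % 5 ≠ 2 ∧ h % 5 ≠ 3

open Pool.Agent.H530.Ha hiding ind sg
open Pool.Agent.H530.Hz

/-- the shifts -/
def sh : Fin 4 → ℤ := ![-2, 0, 4, 10]

/-- the left end -/
def ZZ (n : ℕ) : ℕ := Nat.sqrt (29 * n - 1)

/-- the length -/
def LL (n : ℕ) : ℕ := Nat.sqrt (30 * n) - ZZ n

/-- the coefficients -/
def AA : Fin 4 → ℤ := fun _ => 1

/-- the shifts -/
def BB (Z : ℕ) : Fin 4 → ℤ := fun i => Z + sh i

lemma sh_cases (i : Fin 4) : sh i = -2 ∨ sh i = 0 ∨ sh i = 4 ∨ sh i = 10 := by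
  fin_cases i <;> simp [sh]

lemma num_eq {p : ℕ} (i : Fin 4) (hp : 2 ≤ p) : ((num i p : ℕ) : ℤ) = p + sh i := by
  fin_cases i
  · show ((p - 2 : ℕ) : ℤ) = p + (-2)
    omega
  · show ((p : ℕ) : ℤ) = p + 0
    omega
  · show ((p + 4 : ℕ) : ℤ) = p + 4
    omega
  · show ((p + 10 : ℕ) : ℤ) = p + 10
    omega

lemma adz (Z : ℕ) : AdZ AA (BB Z) := by
  intro p hp
  by_cases h : p = 11 ∨ p = 13 ∨ p = 17 ∨ p = 23
  · refine ⟨103 - Z, fun j => ?_⟩
    have e : AA j * (103 - (Z : ℤ)) + BB Z j = 103 + sh j := by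
      unfold AA BB
      ring
    rw [e]
    rcases sh_cases j with h1 | h1 | h1 | h1 <;> rw [h1] <;> rcases h with h | h | h | h <;> subst h <;> norm_num
  · refine ⟨13 - Z, fun j => ?_⟩
    have e : AA j * (13 - (Z : ℤ)) + BB Z j = 13 + sh j := by
      unfold AA BB
      ring
    rw [e]
    intro hd
    push Not at h
    have key : ∀ r : ℕ, r.Prime → p ≠ r → ¬ (p : ℤ) ∣ (r : ℤ) := by
      intro r hr hne hd
      have h1 : p ∣ r := by exact_mod_cast hd
      exact hne ((Nat.prime_dvd_prime_iff_eq hp hr).1 h1)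
    rcases sh_cases j with h1 | h1 | h1 | h1 <;> rw [h1] at hd
    · exact key 11 (by norm_num) h.1 (by simpa using hd)
    · exact key 13 (by norm_num) h.2.1 (by simpa using hd)
    · exact key 17 (by norm_num) h.2.2.1 (by simpa using hd)
    · exact key 23 (by norm_num) h.2.2.2 (by simpa using hd)

/-- the sieve -/
def QQ (n : ℕ) : ℕ → ℕ → Prop := QZ AA (BB (ZZ n))

lemma svq (n : ℕ) : Sv 4 (QQ n) := sv_QZ (adz (ZZ n))

/-- the shifted set -/
noncomputable def RR (y n : ℕ) : Finset ℕ := RQ (QQ n) (LL n) y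

lemma ZZ_two {n : ℕ} (hn : 1 ≤ n) : 5 ≤ ZZ n := by
  unfold ZZ
  rw [Nat.le_sqrt']
  omega

lemma win_low {n m : ℕ} (hn : 1 ≤ n) : 29 * n ≤ (m + ZZ n) ^ 2 ↔ 1 ≤ m := by
  have h : ZZ n < m + ZZ n ↔ 29 * n - 1 < (m + ZZ n) ^ 2 := by
    unfold ZZ
    exact Nat.sqrt_lt'
  constructor
  · intro h1
    have := h.2 (by omega)
    omega
  · intro h1
    have := h.1 (by omega)
    omega

lemma win_up {n m : ℕ} : (m + ZZ n) ^ 2 ≤ 30 * n ↔ m + ZZ n ≤ Nat.sqrt (30 * n) := Nat.le_sqrt'.symm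

lemma ZZ_le (n : ℕ) : ZZ n ≤ Nat.sqrt (30 * n) := Nat.sqrt_le_sqrt (by omega)

open Pool.Agent.H373R2.T7 in
lemma mem_quads {y n m : ℕ} (hn : 1 ≤ n) : m + ZZ n ∈ quads y n ↔ m ∈ RR y n := by
  classical
  unfold RR quads
  rw [mem_RQ, mem_filter, mem_Icc, win_low hn, win_up]
  have hZ := ZZ_two hn
  have hZ2 := ZZ_le n
  have hb : Nat.sqrt (30 * n) ≤ 30 * n := Nat.sqrt_le_self _
  have key : (∀ q : ℕ, q.Prime → q ≤ y → ∀ i, ¬ q ∣ num i (m + ZZ n)) ↔ (∀ p ∈ Pool.Agent.H373R2.T7.pz y, ¬ QQ n p m) := by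
    have e1 : ∀ i, ((num i (m + ZZ n) : ℕ) : ℤ) = AA i * m + BB (ZZ n) i := by
      intro i
      rw [num_eq i (by omega)]
      unfold AA BB
      push_cast
      ring
    constructor
    · intro h p hp
      rintro ⟨j, hj⟩
      rw [← e1] at hj
      exact h p (mem_pz.1 hp).2 (mem_pz.1 hp).1 j (by exact_mod_cast hj)
    · intro h p hp hpy i hd
      apply h p (mem_pz.2 ⟨hpy, hp⟩)
      refine ⟨i, ?_⟩
      rw [← e1]
      exact_mod_cast hd
  rw [key]
  unfold LL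
  constructor
  · rintro ⟨h1, h2, h3, h4⟩
    exact ⟨by omega, h4⟩
  · rintro ⟨h1, h2⟩
    exact ⟨by omega, by omega, by omega, h2⟩

lemma of_mem {y n q : ℕ} (hn : 1 ≤ n) (h : q ∈ quads y n) : ∃ m, q = m + ZZ n := by
  classical
  unfold quads at h
  rw [mem_filter, mem_Icc] at h
  refine ⟨q - ZZ n, ?_⟩
  have h1 : 29 * n - 1 < q ^ 2 := by omega
  have h2 : ZZ n < q := by
    unfold ZZ
    exact Nat.sqrt_lt'.2 h1
  omega

lemma card3 {y n : ℕ} (hn : 1 ≤ n) (P : ℕ → ℕ → ℕ → Prop) {A B : Finset (ℕ × ℕ × ℕ)}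
    (hA : ∀ t, t ∈ A ↔ t ∈ progs y n ∧ P t.1 t.2.1 t.2.2)
    (hB : ∀ t, t ∈ B ↔ t ∈ rep3 (RR y n) (RR y n) (RR y n) 1 1 (-2) 0 ∧ P (t.1 + ZZ n) (t.2.1 + ZZ n) (t.2.2 + ZZ n)) :
    A.card = B.card := by
  classical
  symm
  apply card_bij (fun t _ => (t.1 + ZZ n, t.2.1 + ZZ n, t.2.2 + ZZ n))
  · rintro ⟨a, b, c⟩ h
    rw [hB] at h
    unfold rep3 at h
    rw [mem_filter, mem_product, mem_product] at h
    obtain ⟨⟨⟨h1, h2, h3⟩, h4⟩, h5⟩ := h
    simp only at h1 h2 h3 h4 h5 ⊢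
    rw [hA]
    unfold progs
    rw [mem_filter, mem_product, mem_product]
    refine ⟨⟨⟨(mem_quads hn).2 h1, (mem_quads hn).2 h2, (mem_quads hn).2 h3⟩, ?_⟩, h5⟩
    simp only
    omega
  · rintro ⟨a, b, c⟩ _ ⟨a', b', c'⟩ _ h
    simp only [Prod.mk.injEq] at h ⊢
    omega
  · rintro ⟨a, b, c⟩ h
    rw [hA] at h
    unfold progs at h
    rw [mem_filter, mem_product, mem_product] at h
    obtain ⟨⟨⟨h1, h2, h3⟩, h4⟩, h5⟩ := h
    simp only at h1 h2 h3 h4 h5
    obtain ⟨a', rfl⟩ := of_mem hn h1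
    obtain ⟨b', rfl⟩ := of_mem hn h2
    obtain ⟨c', rfl⟩ := of_mem hn h3
    refine ⟨(a', b', c'), ?_, rfl⟩
    rw [hB]
    unfold rep3
    rw [mem_filter, mem_product, mem_product]
    refine ⟨⟨⟨(mem_quads hn).1 h1, (mem_quads hn).1 h2, (mem_quads hn).1 h3⟩, ?_⟩, h5⟩
    simp only
    omega

lemma card1 {y n : ℕ} (hn : 1 ≤ n) (P : ℕ → Prop) {A B : Finset ℕ} (hA : ∀ q, q ∈ A ↔ q ∈ quads y n ∧ P q)
    (hB : ∀ m, m ∈ B ↔ m ∈ RR y n ∧ P (m + ZZ n)) : A.card = B.card := by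
  symm
  apply card_bij (fun m _ => m + ZZ n)
  · intro m h
    rw [hB] at h
    rw [hA]
    exact ⟨(mem_quads hn).2 h.1, h.2⟩
  · intro a _ b _ h
    omega
  · intro q h
    rw [hA] at h
    obtain ⟨m, rfl⟩ := of_mem hn h.1
    exact ⟨m, (hB m).2 ⟨(mem_quads hn).1 h.1, h.2⟩, rfl⟩

lemma card2 {y n h : ℕ} (hn : 1 ≤ n) (P : ℕ → ℕ → Prop) {A : Finset ℕ} {B : Finset (ℕ × ℕ)}
    (hA : ∀ q, q ∈ A ↔ q ∈ dist y n h ∧ P q (q + h))
    (hB : ∀ t, t ∈ B ↔ t ∈ rep2 (RR y n) (RR y n) (-1) 1 h ∧ P (t.1 + ZZ n) (t.2 + ZZ n)) : A.card = B.card := by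
  classical
  symm
  apply card_bij (fun t _ => t.1 + ZZ n)
  · rintro ⟨a, b⟩ hh
    rw [hB] at hh
    unfold rep2 at hh
    rw [mem_filter, mem_product] at hh
    obtain ⟨⟨⟨h1, h2⟩, h3⟩, h4⟩ := hh
    simp only at h1 h2 h3 h4 ⊢
    have e : a + ZZ n + h = b + ZZ n := by omega
    rw [hA]
    unfold dist
    rw [mem_filter, e]
    exact ⟨⟨(mem_quads hn).2 h1, (mem_quads hn).2 h2⟩, h4⟩
  · rintro ⟨a, b⟩ ha ⟨a', b'⟩ ha' hh
    rw [hB] at ha ha'
    unfold rep2 at ha ha'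
    rw [mem_filter] at ha ha'
    have h1 := ha.1.2
    have h2 := ha'.1.2
    simp only [Prod.mk.injEq] at hh h1 h2 ⊢
    omega
  · intro q hq
    rw [hA] at hq
    unfold dist at hq
    rw [mem_filter] at hq
    obtain ⟨⟨h1, h2⟩, h3⟩ := hq
    obtain ⟨m, rfl⟩ := of_mem hn h1
    have e : m + ZZ n + h = (m + h) + ZZ n := by omega
    rw [e] at h2 h3
    refine ⟨(m, m + h), ?_, rfl⟩
    rw [hB]
    unfold rep2
    rw [mem_filter, mem_product]
    refine ⟨⟨⟨(mem_quads hn).1 h1, (mem_quads hn).1 h2⟩, ?_⟩, h3⟩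
    simp only
    push_cast
    ring

lemma cardR {y n : ℕ} (hn : 1 ≤ n) : (quads y n).card = (RR y n).card :=
  card1 (y := y) (n := n) hn (fun _ => True) (A := quads y n) (B := RR y n) (fun q => by simp) (fun m => by simp)

/-- the linear forms -/
def lf (n : ℕ) (i : Fin 4) (m : ℕ) : ℤ := 1 * m + ((ZZ n : ℕ) + sh i)

lemma lf_eq {n m : ℕ} (i : Fin 4) (hn : 1 ≤ n) : lf n i m = ((num i (m + ZZ n) : ℕ) : ℤ) := by
  have := ZZ_two hn
  rw [num_eq i (by omega)]
  unfold lf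
  push_cast
  ring

lemma lf_pos {n m : ℕ} (i : Fin 4) (hn : 1 ≤ n) : lf n i m ≠ 0 := by
  have := ZZ_two hn
  unfold lf
  rcases sh_cases i with h | h | h | h <;> rw [h] <;> omega

lemma lf_ll {n X : ℕ} (i : Fin 4) (hlog : 66 ≤ Real.log (X : ℝ)) (hZ : (ZZ n : ℝ) ≤ 65 * X) : Ll X 1 1 (lf n i) := by
  refine ⟨1, (ZZ n : ℕ) + sh i, one_ne_zero, by norm_num, ?_, fun m => rfl⟩
  have h1 : (10 : ℝ) ≤ X := by
    have h2 : Real.log (X : ℝ) ≤ X := Real.log_le_self (Nat.cast_nonneg _)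
    linarith
  have h3 : |(((ZZ n : ℕ) + sh i : ℤ) : ℝ)| ≤ (ZZ n : ℝ) + 10 := by
    have h0 : (0 : ℝ) ≤ (ZZ n : ℝ) := Nat.cast_nonneg _
    push_cast
    rcases sh_cases i with h | h | h | h <;> rw [h] <;> rw [abs_le] <;> push_cast <;> constructor <;> linarith
  refine h3.trans ?_
  rw [pow_one]
  nlinarith

lemma par_lf {n m : ℕ} (i : Fin 4) (s : Bool) (hn : 1 ≤ n) : Par s (num i (m + ZZ n)) ↔ lz (lf n i m) = sg s := by
  have h1 := lf_pos (m := m) i hn
  rw [lf_eq i hn] at h1 ⊢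
  rw [← par_iff, Int.natAbs_natCast]
  unfold Par
  exact ⟨fun h2 => ⟨h1, h2⟩, fun h2 => h2.2⟩

open Pool.Agent.H373R2.T7 in
lemma locA (n : ℕ) : LocA 4 (QQ n) (QQ n) (QQ n) := by
  intro p hp
  obtain ⟨m, hm⟩ := ex_not ((svq n).lt p (mem_pz.1 hp).2)
  exact ⟨m, 0, hm, by simpa using hm, by simpa using hm⟩

lemma free_ex (n h p : ℕ) (hf : Free h) (hp : p.Prime) (h8 : p ≤ 8) :
    ∃ q0 : ℕ, ∀ i : Fin 4, ¬ (p : ℤ) ∣ (q0 : ℤ) + p * ZZ n + sh i ∧ ¬ (p : ℤ) ∣ h + (q0 : ℤ) + p * ZZ n + sh i := by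
  obtain ⟨h6, h5, h5'⟩ := hf
  have h2 := hp.two_le
  interval_cases p
  · refine ⟨1, fun i => ?_⟩
    rcases sh_cases i with h1 | h1 | h1 | h1 <;> rw [h1] <;> constructor <;> omega
  · refine ⟨1, fun i => ?_⟩
    rcases sh_cases i with h1 | h1 | h1 | h1 <;> rw [h1] <;> constructor <;> omega
  · exact absurd hp (by norm_num)
  · by_cases h0 : h % 5 = 4
    · refine ⟨4, fun i => ?_⟩
      rcases sh_cases i with h1 | h1 | h1 | h1 <;> rw [h1] <;> constructor <;> omega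
    · refine ⟨3, fun i => ?_⟩
      rcases sh_cases i with h1 | h1 | h1 | h1 <;> rw [h1] <;> constructor <;> omega
  · exact absurd hp (by norm_num)
  · by_cases h0 : h % 7 = 1 ∨ h % 7 = 3
    · refine ⟨5, fun i => ?_⟩
      rcases sh_cases i with h1 | h1 | h1 | h1 <;> rw [h1] <;> constructor <;> omega
    · by_cases h0 : h % 7 = 2 ∨ h % 7 = 6
      · refine ⟨6, fun i => ?_⟩
        rcases sh_cases i with h1 | h1 | h1 | h1 <;> rw [h1] <;> constructor <;> omega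
      · refine ⟨1, fun i => ?_⟩
        rcases sh_cases i with h1 | h1 | h1 | h1 <;> rw [h1] <;> constructor <;> omega
  · exact absurd hp (by norm_num)

open Pool.Agent.H373R2.T7 in
lemma locD {n h : ℕ} (hf : Free h) : LocD 4 (QQ n) (QQ n) h := by
  intro p hp
  have hp1 := mem_pz.1 hp
  obtain ⟨q0, hq⟩ := free_ex n h p hf hp1.2 (by omega)
  have h1 : 1 ≤ p := hp1.2.one_le
  refine ⟨q0 + (p - 1) * ZZ n, ?_, ?_⟩
  · rintro ⟨j, hj⟩
    apply (hq j).1
    have e : AA j * ((q0 + (p - 1) * ZZ n : ℕ) : ℤ) + BB (ZZ n) j = (q0 : ℤ) + p * ZZ n + sh j := by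
      unfold AA BB
      push_cast [Nat.cast_sub h1]
      ring
    rwa [e] at hj
  · rintro ⟨j, hj⟩
    apply (hq j).2
    have e : AA j * ((h + (q0 + (p - 1) * ZZ n) : ℕ) : ℤ) + BB (ZZ n) j = h + (q0 : ℤ) + p * ZZ n + sh j := by
      unfold AA BB
      push_cast [Nat.cast_sub h1]
      ring
    rwa [e] at hj

/-- the sizes -/
lemma sizes {n : ℕ} (hn : 20000 ≤ n) : √(n : ℝ) ≤ 12 * (LL n : ℝ) ∧ (LL n : ℝ) ≤ √(n : ℝ) / 2 ∧ (ZZ n : ℝ) ≤ 65 * (LL n : ℝ) ∧
    √(n : ℝ) / 15 ≤ (LL n : ℝ) := by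
  obtain ⟨r, hr⟩ : ∃ r, r = √(n : ℝ) := ⟨_, rfl⟩
  have hr0 : 0 ≤ r := by rw [hr]; exact Real.sqrt_nonneg _
  have hr2 : r ^ 2 = n := by rw [hr]; exact Real.sq_sqrt (Nat.cast_nonneg _)
  have hnr : (20000 : ℝ) ≤ n := by exact_mod_cast hn
  have hr1 : 141 ≤ r := by
    by_contra h
    push Not at h
    nlinarith
  obtain ⟨Z, hZ⟩ : ∃ Z, Z = ZZ n := ⟨_, rfl⟩
  obtain ⟨M, hM⟩ : ∃ M, M = Nat.sqrt (30 * n) := ⟨_, rfl⟩
  have z1 : Z ^ 2 ≤ 29 * n - 1 := by rw [hZ]; exact Nat.sqrt_le' _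
  have z2 : 29 * n - 1 < (Z + 1) ^ 2 := by rw [hZ]; exact Nat.lt_succ_sqrt' _
  have m1 : M ^ 2 ≤ 30 * n := by rw [hM]; exact Nat.sqrt_le' _
  have m2 : 30 * n < (M + 1) ^ 2 := by rw [hM]; exact Nat.lt_succ_sqrt' _
  have hZM : Z ≤ M := by rw [hZ, hM]; exact ZZ_le n
  have e : (LL n : ℝ) = (M : ℝ) - Z := by
    unfold LL
    rw [← hZ, ← hM, Nat.cast_sub hZM]
  have z1' : (Z : ℝ) ^ 2 ≤ 29 * n := by
    have : Z ^ 2 ≤ 29 * n := by omega
    exact_mod_cast this
  have z2' : 29 * (n : ℝ) ≤ ((Z : ℝ) + 1) ^ 2 := by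
    have : 29 * n ≤ (Z + 1) ^ 2 := by omega
    exact_mod_cast this
  have m1' : (M : ℝ) ^ 2 ≤ 30 * n := by exact_mod_cast m1
  have m2' : 30 * (n : ℝ) ≤ ((M : ℝ) + 1) ^ 2 := by exact_mod_cast m2.le
  rw [← hr2] at z1' z2' m1' m2'
  have hZ0 : (0 : ℝ) ≤ Z := Nat.cast_nonneg _
  have hM0 : (0 : ℝ) ≤ M := Nat.cast_nonneg _
  have a1 : (Z : ℝ) ≤ 5.3852 * r := by
    by_contra h
    push Not at h
    nlinarith
  have a2 : 5.385 * r ≤ (Z : ℝ) + 1 := by
    by_contra h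
    push Not at h
    nlinarith
  have a3 : (M : ℝ) ≤ 5.4773 * r := by
    by_contra h
    push Not at h
    nlinarith
  have a4 : 5.4772 * r ≤ (M : ℝ) + 1 := by
    by_contra h
    push Not at h
    nlinarith
  rw [← hr, ← hZ, e]
  refine ⟨by linarith, by linarith, by linarith, by linarith⟩

open Classical in
/-- **Almost prime quadruples among the values of the linear form, with prescribed parities.** -/
theorem result : ∃ c C : ℝ, 0 < c ∧ 0 < C ∧ ∃ A : ℕ, 1 ≤ A ∧ ∀ K : ℕ, A ≤ K → ∃ n₀ y₀ : ℕ,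
    ∀ n y : ℕ, n₀ ≤ n → ¬ 4 ∣ n → y₀ ≤ y → y ^ K ≤ n →
    ∀ G δ : ℝ, G = ((quads y n).card : ℝ) → δ = (1 / 2 : ℝ) ^ (K / A) →
      (∀ p ∈ quads y n, Val n p) ∧
      c * (√(n : ℝ) / Real.log n ^ 4) ≤ G ∧
      (∀ (i : Fin 4) (s : Bool), |2 * (((quads y n).filter (fun p => Par s (num i p))).card : ℝ) - G| ≤ δ * G) ∧
      c * (G ^ 3 / √(n : ℝ)) ≤ ((progs y n).filter (fun t => t.1 < t.2.2)).card ∧
      ((progs y n).card : ℝ) ≤ C * (G ^ 3 / √(n : ℝ)) ∧
      (∀ (i₁ i₂ i₃ : Fin 4) (s₁ s₂ s₃ : Bool),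
        |8 * ((pattern y n i₁ i₂ i₃ s₁ s₂ s₃).card : ℝ) - (progs y n).card| ≤ δ * (progs y n).card) ∧
      (∀ (S₁ S₃ : Finset ℕ) (i : Fin 4),
        |((within y n S₁ S₃ i true).card : ℝ) - (within y n S₁ S₃ i false).card| ≤ δ * (G ^ 3 / √(n : ℝ))) ∧
      (∀ h : ℕ, Free h → (30 * h) ^ 2 ≤ n → c * (G ^ 2 / √(n : ℝ)) ≤ (dist y n h).card) ∧
      ∀ i₁ i₂ : Fin 4, (((range n).filter (fun h => Free h ∧ ∃ s₁ s₂ : Bool,
        δ * (dist y n h).card < |4 * ((distPat y n h i₁ i₂ s₁ s₂).card : ℝ) - (dist y n h).card|)).card : ℝ) ≤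
          δ * √(n : ℝ) := by
  obtain ⟨c1, hc1, H1⟩ := all_F 4 (by norm_num)
  obtain ⟨K1, hK1, H1⟩ := H1 1 one_pos
  obtain ⟨c2, hc2, A2, hA2, H2⟩ := F3apL 4 (by norm_num) 1
  obtain ⟨C3, hC3, K3, hK3, X3, y3, H3⟩ := F3up 4 (by norm_num)
  obtain ⟨A4, hA4L, hA4, H4⟩ := F3subL 4 (by norm_num) 1 (A2 + K1 + K3)
  obtain ⟨A5, hA5L, hA5, H5⟩ := all_lin 4 (by norm_num) 1 A4
  obtain ⟨c6, hc6, A6, hA6, H6⟩ := F2dL 4 (by norm_num) 1
  obtain ⟨A0, hA0⟩ : ∃ A0, A0 = 4 * (A2 + A4 + A5 + A6 + K1 + K3) := ⟨_, rfl⟩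
  obtain ⟨A, hAL, hA0A, hA⟩ := absorb A0 1 2 (by omega) 12 (by norm_num)
  obtain ⟨c, hc⟩ : ∃ c : ℝ, c = min (min (c1 / 12) c2) (c6 / 2) := ⟨_, rfl⟩
  have hcc1 : c ≤ c1 / 12 := by rw [hc]; exact (min_le_left _ _).trans (min_le_left _ _)
  have hcc2 : c ≤ c2 := by rw [hc]; exact (min_le_left _ _).trans (min_le_right _ _)
  have hcc3 : c ≤ c6 / 2 := by rw [hc]; exact min_le_right _ _
  have hc0 : 0 < c := by rw [hc]; exact lt_min (lt_min (by positivity) hc2) (by positivity)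
  refine ⟨c, 12 * C3, hc0, by positivity, A, by omega, fun K hK => ?_⟩
  obtain ⟨K', hK'⟩ : ∃ K', K' = K / 2 - 1 := ⟨_, rfl⟩
  have hK4 : K / 4 ≤ K' := by omega
  have hAK : A2 + A4 + A5 + A6 + K1 + K3 ≤ K / 4 := by
    rw [Nat.le_div_iff_mul_le (by norm_num)]
    omega
  obtain ⟨X1, y1, H1⟩ := H1 1
  obtain ⟨X2, y2, H2⟩ := H2 K' (by omega) 1
  obtain ⟨X4, y4, H4⟩ := H4 K' (by omega) 1
  obtain ⟨X5, y5, H5⟩ := H5 K' (by omega) 1
  obtain ⟨X6, y6, H6⟩ := H6 K' (by omega) 1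
  obtain ⟨X7, hX7⟩ := Pool.Agent.H373R2.T7.ev_L' 66
  obtain ⟨T, hT⟩ : ∃ T, T = X1 + X2 + X3 + X4 + X5 + X6 + X7 + 2 := ⟨_, rfl⟩
  refine ⟨(12 * T) ^ 2 + 20000, y1 + y2 + y3 + y4 + y5 + y6 + 12, ?_⟩
  intro n y hn h4n hy hyn G δ hG hδ
  have hn1 : 1 ≤ n := by omega
  obtain ⟨s1, s2, s3, s4⟩ := sizes (n := n) (by omega)
  obtain ⟨X, hX⟩ : ∃ X, X = LL n := ⟨_, rfl⟩
  rw [← hX] at s1 s2 s3 s4
  obtain ⟨r, hr⟩ : ∃ r, r = √(n : ℝ) := ⟨_, rfl⟩
  rw [← hr] at s1 s2 s4 ⊢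
  have hr0 : 0 ≤ r := by rw [hr]; exact Real.sqrt_nonneg _
  have hr2 : r ^ 2 = n := by rw [hr]; exact Real.sq_sqrt (Nat.cast_nonneg _)
  have hnr : ((12 * T) ^ 2 + 20000 : ℝ) ≤ n := by exact_mod_cast hn
  have hrT : 12 * (T : ℝ) ≤ r := by
    have h0 : (0 : ℝ) ≤ T := Nat.cast_nonneg _
    by_contra h
    push Not at h
    nlinarith
  have hXT : T ≤ X := by
    have : (T : ℝ) ≤ X := by linarith
    exact_mod_cast this
  have hXge : X1 + X2 + X3 + X4 + X5 + X6 + X7 + 2 ≤ X := by omega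
  have hyX : y ^ K' ≤ X := by
    have h1 : (y ^ (K / 2)) ^ 2 ≤ n := by
      rw [← pow_mul]
      exact (Nat.pow_le_pow_right (by omega) (by omega)).trans hyn
    have h2 : ((y ^ (K / 2) : ℕ) : ℝ) ≤ r := by
      have h3 : ((y ^ (K / 2) : ℕ) : ℝ) ^ 2 ≤ n := by exact_mod_cast h1
      rw [← hr2] at h3
      exact (abs_le_of_sq_le_sq' h3 hr0).2
    have h3 : ((12 * y ^ K' : ℕ) : ℝ) ≤ ((y ^ (K / 2) : ℕ) : ℝ) := by
      have h5 : 12 * y ^ K' ≤ y ^ (K / 2) := by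
        calc 12 * y ^ K' ≤ y * y ^ K' := Nat.mul_le_mul_right _ (by omega)
          _ = y ^ (K / 2) := by
              rw [← pow_succ']
              congr 1
              omega
      exact_mod_cast h5
    have h4 : ((y ^ K' : ℕ) : ℝ) ≤ X := by
      push_cast at h3 ⊢
      push_cast at h2
      linarith
    exact_mod_cast h4
  have hXr : (2 : ℝ) ≤ X := by exact_mod_cast (by omega : 2 ≤ X)
  have hrp : 0 < r := by linarith
  have hXN : (X : ℝ) ≤ r := by linarith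
  have hrn : r ≤ n := by
    rw [← hr2]
    nlinarith
  have hlogX : 66 ≤ Real.log (X : ℝ) := hX7 X (by omega)
  have hll : ∀ i, Ll X 1 1 (lf n i) := fun i => lf_ll i hlogX s3
  have hsv := svq n
  have hRR : RR y n = RQ (QQ n) X y := by unfold RR; rw [← hX]
  have hGR : G = ((RQ (QQ n) X y).card : ℝ) := by rw [hG, cardR hn1, hRR]
  have hG0 : 0 ≤ G := by rw [hG]; exact Nat.cast_nonneg _
  -- the small numbers
  have hδ0 : 0 < δ := by rw [hδ]; positivity
  have hpow : ∀ a : ℕ, 1 ≤ a → 4 * a ≤ A0 → (1 / 2 : ℝ) ^ (K' / a) ≤ (1 / 2 : ℝ) ^ (K / A0) := by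
    intro a ha h2
    apply pow_le_pow_of_le_one (by norm_num) (by norm_num)
    calc K / A0 ≤ K / (4 * a) := Nat.div_le_div_left h2 (by omega)
      _ = K / 4 / a := by rw [Nat.div_div_eq_div_mul]
      _ ≤ K' / a := Nat.div_le_div_right hK4
  have hd2 : 12 * (1 / 2 : ℝ) ^ (K / A0) ≤ δ := by
    have := hA K hK
    rw [pow_one] at this
    rwa [hδ]
  have hd1 : (1 / 2 : ℝ) ^ (K / A0) ≤ δ := by
    have : (0 : ℝ) < (1 / 2 : ℝ) ^ (K / A0) := by positivity
    linarith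
  have r1 := (H1 _ hsv X y (by omega) (by omega) ((Nat.pow_le_pow_right (by omega) (by omega)).trans hyX)).1
  have r2 := H2 _ _ _ hsv hsv hsv X y (by omega) (by omega) hyX (locA n)
  have r3 := H3 _ _ _ hsv hsv hsv X y (by omega) (by omega) ((Nat.pow_le_pow_right (by omega) (by omega)).trans hyX)
    1 1 (-2) one_ne_zero one_ne_zero (by norm_num) 0
  have r4 := H4 _ _ _ hsv hsv hsv X y (by omega) (by omega) hyX 1 1 (-2) one_ne_zero one_ne_zero (by norm_num) 0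
  have r6 := H6 _ _ hsv hsv X y (by omega) (by omega) hyX
  rw [← hGR] at r1
  rw [← hGR] at r2 r3 r6
  rw [← hGR] at r4
  rw [← hRR] at r2 r3 r4 r6
  obtain ⟨g, hg⟩ : ∃ g : ℝ, g = G * G * G / X := ⟨_, rfl⟩
  rw [← hg] at r2 r3 r4
  have hg0 : 0 ≤ g := by rw [hg]; positivity
  have hgN : G ^ 3 / r ≤ g := by
    rw [hg]
    have e : G ^ 3 = G * G * G := by ring
    rw [e]
    exact div_le_div_of_nonneg_left (by positivity) (by linarith) hXN
  have hgN2 : g ≤ 12 * (G ^ 3 / r) := by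
    rw [hg, ← mul_div_assoc, div_le_div_iff₀ (by linarith) hrp]
    have e : 0 ≤ G * G * G := by positivity
    nlinarith
  have hprog : ((progs y n).card : ℝ) = ((rep3 (RR y n) (RR y n) (RR y n) 1 1 (-2) 0).card : ℝ) := by
    have := card3 (y := y) (n := n) hn1 (fun _ _ _ => True) (A := progs y n)
      (B := rep3 (RR y n) (RR y n) (RR y n) 1 1 (-2) 0) (fun t => by simp) (fun t => by simp)
    exact_mod_cast this
  refine ⟨?_, ?_, ?_, ?_, ?_, ?_, ?_, ?_, ?_⟩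
  · -- the values
    intro p hp
    unfold quads at hp
    rw [mem_filter] at hp
    obtain ⟨_, h1, h2, h3⟩ := hp
    have hcop : Nat.Coprime p 30 := by
      have h5 : ∀ q : ℕ, q.Prime → q ≤ 5 → Nat.Coprime p q := by
        intro q hq hq5
        rw [Nat.coprime_comm]
        exact (Nat.Prime.coprime_iff_not_dvd hq).2 (by simpa [num] using h3 q hq (by omega) 1)
      have e : (30 : ℕ) = 2 * 3 * 5 := by norm_num
      rw [e]
      exact Nat.Coprime.mul_right (Nat.Coprime.mul_right (h5 2 (by norm_num) (by norm_num))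
        (h5 3 (by norm_num) (by norm_num))) (h5 5 (by norm_num) (by norm_num))
    obtain ⟨a, b, c, d, h5, h6⟩ := Pool.Agent.H141R2.FS.rep h4n hcop h1 h2
    exact ⟨a, b, c, d, h5, h6.symm⟩
  · -- the size
    have hlN : Real.log (X : ℝ) ≤ Real.log n := Real.log_le_log (by linarith) (by linarith)
    have h1 : r / Real.log n ^ 4 ≤ 12 * (X / Real.log X ^ 4) := by
      rw [← mul_div_assoc]
      exact div_le_div₀ (by linarith) s1 (by positivity) (pow_le_pow_left₀ (by linarith) hlN 4)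
    have h2 : 0 ≤ r / Real.log n ^ 4 := by positivity
    calc c * (r / Real.log n ^ 4) ≤ c1 / 12 * (r / Real.log n ^ 4) := mul_le_mul_of_nonneg_right hcc1 h2
      _ ≤ c1 / 12 * (12 * (X / Real.log X ^ 4)) := mul_le_mul_of_nonneg_left h1 (by positivity)
      _ = c1 * (X / Real.log X ^ 4) := by ring
      _ ≤ G := r1
  · intro b s
    obtain ⟨a', b', ha, haa, hb, hl⟩ := hll b
    have h5 := H5 _ hsv X y (by omega) (by omega) hyX a' b' ha haa hb 0
    rw [← hRR] at h5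
    have e1 : ∑ m ∈ RR y n, ((lz (a' * m + b') : ℝ) : ℂ) * Pool.Agent.H807R2.Dav.ee (m * 0) =
        ((∑ m ∈ RR y n, lz (lf n b m) : ℝ) : ℂ) := by
      push_cast
      apply sum_congr rfl
      intro m _
      rw [mul_zero, Pool.Agent.H807R2.Dav.ee_zero, mul_one, hl]
    rw [e1, Complex.norm_real, Real.norm_eq_abs] at h5
    have e2 : ((RR y n).card : ℝ) = G := by rw [hGR, hRR]
    rw [e2] at h5
    have e3 : (((quads y n).filter (fun q => Par s (num b q))).card : ℝ) = ∑ m ∈ RR y n, ind (sg s) (lf n b m) := by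
      rw [card1 hn1 (fun q => Par s (num b q)) (B := (RR y n).filter (fun m => lz (lf n b m) = sg s))
        (fun q => by rw [mem_filter]) (fun m => by
          rw [mem_filter, par_lf b s hn1])]
      unfold ind
      rw [card_eq_sum_ones, Nat.cast_sum, sum_filter]
      apply sum_congr rfl
      intro m _
      split_ifs <;> simp
    rw [e3, mul_sum]
    have e4 : ∑ m ∈ RR y n, 2 * ind (sg s) (lf n b m) = G + sg s * ∑ m ∈ RR y n, lz (lf n b m) := by
      rw [← e2, card_eq_sum_ones, Nat.cast_sum, mul_sum, ← sum_add_distrib]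
      apply sum_congr rfl
      intro m hm
      rw [ind_eq (sg_cases s)]
      have h1 : lf n b m ≠ 0 := lf_pos b hn1
      unfold zr
      rw [if_neg h1]
      push_cast
      ring
    rw [e4, add_sub_cancel_left, abs_mul, sgn_abs (sg_cases s), one_mul]
    refine h5.trans (mul_le_mul_of_nonneg_right ?_ hG0)
    exact (hpow A5 hA5 (by omega)).trans hd1
  · have h1 := card3 (y := y) (n := n) hn1 (fun a _ c => a < c) (A := (progs y n).filter (fun t => t.1 < t.2.2))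
      (B := (rep3 (RR y n) (RR y n) (RR y n) 1 1 (-2) 0).filter (fun t => t.1 < t.2.2))
      (fun t => by rw [mem_filter]) (fun t => by
        rw [mem_filter]
        apply and_congr_right
        intro _
        omega)
    have h3 : (((progs y n).filter (fun t => t.1 < t.2.2)).card : ℝ) =
        ((rep3 (RR y n) (RR y n) (RR y n) 1 1 (-2) 0).filter (fun t => t.1 < t.2.2)).card := by exact_mod_cast h1
    rw [h3]
    refine le_trans ?_ r2.1
    calc c * (G ^ 3 / r) ≤ c2 * (G ^ 3 / r) := mul_le_mul_of_nonneg_right hcc2 (by positivity)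
      _ ≤ c2 * g := mul_le_mul_of_nonneg_left hgN hc2.le
  · rw [hprog]
    refine r3.trans ?_
    calc C3 * g ≤ C3 * (12 * (G ^ 3 / r)) := mul_le_mul_of_nonneg_left hgN2 hC3.le
      _ = 12 * C3 * (G ^ 3 / r) := by ring
  · intro b₁ b₂ b₃ s₁ s₂ s₃
    have h := r2.2 (lf n b₁) (lf n b₃) (lf n b₂) (hll b₁) (hll b₃) (hll b₂) _ _ _ (sg_cases s₁) (sg_cases s₃) (sg_cases s₂)
    rw [pat3L_card] at h
    have e1 : (pattern y n b₁ b₂ b₃ s₁ s₂ s₃).card =
        ((rep3 (RR y n) (RR y n) (RR y n) 1 1 (-2) 0).filter (fun t => lz (lf n b₁ t.1) = sg s₁ ∧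
          lz (lf n b₃ t.2.1) = sg s₃ ∧ lz (lf n b₂ t.2.2) = sg s₂)).card := by
      apply card3 hn1 (fun a b c => Par s₁ (num b₁ a) ∧ Par s₃ (num b₃ b) ∧ Par s₂ (num b₂ c))
      · intro t
        unfold pattern
        rw [mem_filter]
      · intro t
        rw [mem_filter, par_lf b₁ s₁ hn1, par_lf b₃ s₃ hn1, par_lf b₂ s₂ hn1]
    rw [e1, hprog]
    refine h.trans (mul_le_mul_of_nonneg_right ?_ (Nat.cast_nonneg _))
    exact (hpow A2 hA2 (by omega)).trans hd1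
  · intro S₁ S₃ b
    have h := r4 (lf n b) (hll b) ((RR y n).filter (fun m => m + ZZ n ∈ S₁)) ((RR y n).filter (fun m => m + ZZ n ∈ S₃))
    have e3 : ∀ s : Bool, ((within y n S₁ S₃ b s).card : ℝ) =
        ∑ t ∈ (rep3 (RR y n) (RR y n) (RR y n) 1 1 (-2) 0).filter (fun t => t.1 ∈ (RR y n).filter (fun m => m + ZZ n ∈ S₁) ∧
          t.2.1 ∈ (RR y n).filter (fun m => m + ZZ n ∈ S₃)), (if lz (lf n b t.2.2) = sg s then (1 : ℝ) else 0) := by
      intro s
      rw [← sum_filter, filter_filter, sum_const, nsmul_eq_mul, mul_one]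
      congr 1
      apply card3 hn1 (fun a c d => a ∈ S₁ ∧ c ∈ S₃ ∧ Par s (num b d))
      · intro t
        unfold within
        rw [mem_filter]
      · intro t
        rw [mem_filter]
        apply and_congr_right
        intro ht
        unfold rep3 at ht
        rw [mem_filter, mem_product, mem_product] at ht
        rw [par_lf b s hn1, mem_filter, mem_filter]
        constructor
        · rintro ⟨⟨⟨_, q1⟩, _, q2⟩, q3⟩
          exact ⟨q1, q2, q3⟩
        · rintro ⟨q1, q2, q3⟩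
          exact ⟨⟨⟨ht.1.1, q1⟩, ht.1.2.1, q2⟩, q3⟩
    have h2 : |((within y n S₁ S₃ b true).card : ℝ) - (within y n S₁ S₃ b false).card| ≤ (1 / 2 : ℝ) ^ (K' / A4) * g := by
      refine le_trans (le_of_eq ?_) h
      rw [e3, e3, ← sum_sub_distrib, ← abs_neg, ← sum_neg_distrib]
      congr 1
      apply sum_congr rfl
      intro t _
      rcases lz_cases (lf n b t.2.2) with h | h | ⟨h, _⟩ <;> rw [h] <;> norm_num [sg]
    refine h2.trans ?_
    have h3 := hpow A4 hA4 (by omega)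
    have h4 : 0 ≤ G ^ 3 / r := by positivity
    calc (1 / 2 : ℝ) ^ (K' / A4) * g ≤ (1 / 2 : ℝ) ^ (K / A0) * (12 * (G ^ 3 / r)) :=
          mul_le_mul h3 hgN2 hg0 (by positivity)
      _ = (12 * (1 / 2 : ℝ) ^ (K / A0)) * (G ^ 3 / r) := by ring
      _ ≤ δ * (G ^ 3 / r) := mul_le_mul_of_nonneg_right hd2 h4
  · intro h hf h4
    have hh : (h : ℝ) ≤ r / 30 := by
      have h5 : ((30 * h : ℕ) : ℝ) ^ 2 ≤ n := by exact_mod_cast h4
      rw [← hr2] at h5
      have h6 := (abs_le_of_sq_le_sq' h5 hr0).2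
      push_cast at h6
      linarith
    have hhX : 2 * h ≤ X := by
      have : (2 * h : ℝ) ≤ X := by linarith
      exact_mod_cast this
    have hd : (dist y n h).card = (rep2 (RR y n) (RR y n) (-1) 1 h).card :=
      card2 (y := y) (n := n) (h := h) hn1 (fun _ _ => True) (A := dist y n h) (B := rep2 (RR y n) (RR y n) (-1) 1 h)
        (fun q => by simp) (fun t => by simp)
    have h1 : (1 / 2 : ℝ) * X ≤ ((X - h : ℕ) : ℝ) := by
      have h2 : X ≤ 2 * (X - h) := by omega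
      have h3 : (X : ℝ) ≤ 2 * ((X - h : ℕ) : ℝ) := by exact_mod_cast h2
      linarith
    have h2 : (1 / 2 : ℝ) ^ (K' / A6) ≤ 1 / 2 := by
      have h3 : 1 ≤ K' / A6 := (Nat.one_le_div_iff hA6).2 (by omega)
      calc (1 / 2 : ℝ) ^ (K' / A6) ≤ (1 / 2 : ℝ) ^ 1 := pow_le_pow_of_le_one (by norm_num) (by norm_num) h3
        _ = 1 / 2 := by norm_num
    have h3 := r6.1 h (by omega) (le_trans (mul_le_mul_of_nonneg_right h2 (by linarith)) h1) (locD hf)
    rw [hd]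
    refine le_trans ?_ h3
    have h5 : (1 / 2 : ℝ) ≤ ((X - h : ℕ) : ℝ) / X := by
      rw [le_div_iff₀ (by linarith)]
      exact h1
    have h7 : G ^ 2 / r ≤ G * G / X := by
      have e : G ^ 2 = G * G := by ring
      rw [e]
      exact div_le_div_of_nonneg_left (by positivity) (by linarith) hXN
    have h8 : 0 ≤ G ^ 2 / r := by positivity
    calc c * (G ^ 2 / r) ≤ c6 / 2 * (G ^ 2 / r) := mul_le_mul_of_nonneg_right hcc3 h8
      _ ≤ c6 / 2 * (G * G / X) := mul_le_mul_of_nonneg_left h7 (by positivity)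
      _ = c6 * (1 / 2) * (G * G / X) := by ring
      _ ≤ c6 * (((X - h : ℕ) : ℝ) / X) * (G * G / X) := by
          apply mul_le_mul_of_nonneg_right _ (by positivity)
          exact mul_le_mul_of_nonneg_left h5 hc6.le
  · intro b₁ b₂
    have h := r6.2 (lf n b₁) (lf n b₂) (hll b₁) (hll b₂)
    have hd : ∀ h : ℕ, (dist y n h).card = (rep2 (RR y n) (RR y n) (-1) 1 h).card := fun h =>
      card2 (y := y) (n := n) (h := h) hn1 (fun _ _ => True) (A := dist y n h) (B := rep2 (RR y n) (RR y n) (-1) 1 h)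
        (fun q => by simp) (fun t => by simp)
    have hdp : ∀ (h : ℕ) (s₁ s₂ : Bool), ((distPat y n h b₁ b₂ s₁ s₂).card : ℝ) =
        pat2L (rep2 (RR y n) (RR y n) (-1) 1 h) (lf n b₁) (lf n b₂) (sg s₁) (sg s₂) := by
      intro h s₁ s₂
      rw [pat2L_card]
      congr 1
      apply card2 hn1 (fun a b => Par s₁ (num b₁ a) ∧ Par s₂ (num b₂ b))
      · intro q
        unfold distPat
        rw [mem_filter]
      · intro t
        rw [mem_filter, par_lf b₁ s₁ hn1, par_lf b₂ s₂ hn1]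
    have hδ' := (hpow A6 hA6 (by omega)).trans hd1
    refine le_trans ?_ (h.trans (mul_le_mul hδ' hXN (by linarith) hδ0.le))
    rw [Nat.cast_le]
    apply card_le_card
    intro h hh
    rw [mem_filter, mem_range] at hh ⊢
    obtain ⟨h1, h6, s₁, s₂, h7⟩ := hh
    have hhX : h < X := by
      by_contra hge
      push Not at hge
      have h0 : (dist y n h).card = 0 := by
        rw [hd, card_eq_zero]
        unfold rep2
        rw [filter_eq_empty_iff]
        rintro ⟨a, b⟩ hab hab2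
        rw [mem_product, hRR, mem_RQ, mem_RQ] at hab
        simp only at hab hab2
        omega
      have h0' : (distPat y n h b₁ b₂ s₁ s₂).card = 0 := by
        have : (distPat y n h b₁ b₂ s₁ s₂).card ≤ (dist y n h).card := by
          unfold distPat
          exact card_filter_le _ _
        omega
      rw [h0, h0'] at h7
      simp at h7
    refine ⟨hhX, locD h6, sg s₁, sg s₂, sg_cases s₁, sg_cases s₂, ?_⟩
    rw [hdp, hd] at h7
    refine lt_of_le_of_lt ?_ h7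
    exact mul_le_mul_of_nonneg_right hδ' (Nat.cast_nonneg _)

end Pool.Agent.Results.MP_40574a_nt.ValuesWithParityPatterns
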